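import Pool.Agent.helper99.ZR.Spec

set_option autoImplicit false

namespace Pool.Agent.ZR

open Finset
open Pool.Agent.helper32.Cant
open Pool.Agent.GA (nrm chi ch St sg flp Psi rc ph pot rpot far nc gf ncs gfs good mj om pick pat et kap mult)
open scoped ENNReal

noncomputable section

/-- the radii of the piece `[lam, 2 lam)` -/
def FIN_set (B : Set ℝ) (lam x : ℝ) : Set ℝ :=
  {s | 0 ≤ s ∧ s < 1 ∧ ∀ c ∈ cantorSet, x + lam * (1 + s) * (c - 1 / 2) ∈ B}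

lemma FIN_pos (a : ℝ≥0∞) (ha : a ≠ 0) : ∃ i : ℕ, ENNReal.ofReal (1 / ((i : ℝ) + 1)) < a := by
  obtain ⟨r, hr0, hr⟩ := ENNReal.lt_iff_exists_nnreal_btwn.mp (pos_iff_ne_zero.mpr ha)
  have hr1 : 0 < (r : ℝ) := by exact_mod_cast hr0
  obtain ⟨i, hi⟩ := exists_nat_one_div_lt hr1
  refine ⟨i, lt_of_le_of_lt ?_ hr⟩
  have h1 := ENNReal.ofReal_le_ofReal hi.le
  rwa [ENNReal.ofReal_coe_nnreal] at h1

lemma FIN_null (hFN1 : FN1_stmt) (B : Set ℝ) (hB : MeasureTheory.volume B = 0) (lam : ℝ) (hlam : 0 < lam) :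
    ∀ᵐ x : ℝ, cont (psE (10 ^ 14)) (FIN_set B lam x) = 0 := by
  rw [MeasureTheory.ae_iff]
  have hsub : {x : ℝ | ¬ cont (psE (10 ^ 14)) (FIN_set B lam x) = 0} ⊆
      ⋃ m : ℤ, ⋃ i : ℕ, {x : ℝ | ((m : ℝ) * lam ≤ x ∧ x < (m : ℝ) * lam + lam) ∧
        ENNReal.ofReal (1 / ((i : ℝ) + 1)) < cont (psE (10 ^ 14)) (FIN_set B lam x)} := by
    intro x hx
    obtain ⟨i, hi⟩ := FIN_pos _ hx
    rw [Set.mem_iUnion]
    refine ⟨⌊x / lam⌋, ?_⟩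
    rw [Set.mem_iUnion]
    refine ⟨i, ⟨?_, ?_⟩, hi⟩
    · have h1 := Int.floor_le (x / lam)
      rwa [le_div_iff₀ hlam] at h1
    · have h1 := Int.lt_floor_add_one (x / lam)
      rw [div_lt_iff₀ hlam] at h1
      linarith
  apply MeasureTheory.measure_mono_null hsub
  rw [MeasureTheory.measure_iUnion_null_iff]
  intro m
  rw [MeasureTheory.measure_iUnion_null_iff]
  intro i
  apply hFN1 B hB ((m : ℝ) * lam) lam (1 / ((i : ℝ) + 1)) hlam (by positivity)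
  · intro x hx
    exact hx.1
  · intro x hx
    exact hx.2

theorem FIN (hFN1 : FN1_stmt) (hGAU : GAU_stmt) : FIN_stmt := by
  refine ⟨2 * 10 ^ 14, by norm_num, ?_⟩
  intro B hB
  have hall : ∀ᵐ x : ℝ, ∀ l : ℤ, cont (psE (10 ^ 14)) (FIN_set B ((2 : ℝ) ^ l) x) = 0 := by
    rw [MeasureTheory.ae_all_iff]
    intro l
    exact FIN_null hFN1 B hB _ (by positivity)
  filter_upwards [hall] with x hx
  have hsub : {r : ℝ | 0 < r ∧ ∀ c ∈ cantorSet, x + r * (c - 1 / 2) ∈ B} ⊆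
      ⋃ l : ℤ, {r : ℝ | ((2 : ℝ) ^ l ≤ r ∧ r < (2 : ℝ) ^ l * 2) ∧ ∀ c ∈ cantorSet, x + r * (c - 1 / 2) ∈ B} := by
    intro r hr
    obtain ⟨l, hl⟩ := exists_mem_Ico_zpow hr.1 (one_lt_two (α := ℝ))
    rw [Set.mem_iUnion]
    refine ⟨l, ⟨hl.1, ?_⟩, hr.2⟩
    have h2 := hl.2
    rwa [zpow_add_one₀ (by norm_num : (2 : ℝ) ≠ 0)] at h2
  apply MeasureTheory.measure_mono_null hsub
  rw [MeasureTheory.measure_iUnion_null_iff]
  intro l
  have hlam : (0 : ℝ) < (2 : ℝ) ^ l := by positivity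
  apply hGAU (10 ^ 14) (2 * 10 ^ 14) ((2 : ℝ) ^ l) (by norm_num) (by norm_num) hlam
  have hset : {s : ℝ | (2 : ℝ) ^ l * (1 + s) ∈ {r : ℝ | ((2 : ℝ) ^ l ≤ r ∧ r < (2 : ℝ) ^ l * 2) ∧
      ∀ c ∈ cantorSet, x + r * (c - 1 / 2) ∈ B}} = FIN_set B ((2 : ℝ) ^ l) x := by
    ext s
    constructor
    · rintro ⟨⟨h1, h2⟩, h3⟩
      refine ⟨?_, ?_, h3⟩
      · have := le_of_mul_le_mul_left (by linarith : (2 : ℝ) ^ l * 1 ≤ (2 : ℝ) ^ l * (1 + s)) hlam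
        linarith
      · have := lt_of_mul_lt_mul_left h2 hlam.le
        linarith
    · rintro ⟨h1, h2, h3⟩
      refine ⟨⟨?_, ?_⟩, h3⟩
      · nlinarith
      · nlinarith
  rw [hset]
  exact hx l

end

end Pool.Agent.ZR
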